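import Pool.Agent.W190.M.M7

/-! # The sup norm of the Möbius exponential sum, for every length

`‖F_R‖` is almost increasing in `R`, and a zero of any Dirichlet `L`-function in `Re s > α` forces
`‖F_R‖ ≥ R ^ α` for ALL large `R`.  So the bound `‖F_R‖ ≤ R ^ (1/2 + ε)` for one sequence
`R → ∞` implies the generalised Riemann hypothesis for all Dirichlet `L`-functions, and if the latter
fails then the question has a negative answer for every large `R`. -/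

set_option autoImplicit false

open Filter Topology Set

namespace Pool.Agent.Results.MP_b6b996_nt.EveryLength

/-- `F_R(x) = ∑_{n=1}^R μ(n) e^{2 π i n x}`. -/
noncomputable def F (R : ℕ) (x : ℝ) : ℂ :=
  ∑ n ∈ Finset.Icc 1 R, ((ArithmeticFunction.moebius n : ℤ) : ℂ) *
    Complex.exp (2 * Real.pi * Complex.I * n * x)

/-- The sup norm of `F_R` on `[0, 1]`. -/
noncomputable def supNorm (R : ℕ) : ℝ := sSup ((fun x : ℝ => ‖F R x‖) '' Icc 0 1)

/-- `ρ` is a zero of `L(s, χ)` in the critical strip for some Dirichlet character `χ`. -/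
def IsZero (ρ : ℂ) : Prop :=
  ∃ q : ℕ, ∃ _ : NeZero q, ∃ χ : DirichletCharacter ℂ q,
    DirichletCharacter.LFunction χ ρ = 0 ∧ 0 < ρ.re ∧ ρ.re < 1

theorem F_eq (R : ℕ) (x : ℝ) : F R x = Pool.Agent.W190.M.FR R x := by
  unfold F Pool.Agent.W190.M.FR
  refine Finset.sum_congr rfl fun n _ => ?_
  rw [Pool.Agent.W190.M.ex_def]
  congr 2
  push_cast
  ring

theorem supNorm_eq (R : ℕ) : supNorm R = Pool.Agent.W190.M.SN R := by
  unfold supNorm Pool.Agent.W190.M.SN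
  congr 1
  refine Set.image_congr fun x _ => ?_
  rw [F_eq]

/-- **Main theorem.** -/
theorem result :
    (∀ K R : ℕ, K ≤ R → supNorm K ≤ (2 + Real.log (R + 1)) * supNorm R) ∧
    (∀ ρ : ℂ, IsZero ρ → ∀ α : ℝ, α < ρ.re → ∀ᶠ R : ℕ in atTop, (R : ℝ) ^ α ≤ supNorm R) ∧
    (∀ α : ℝ, 0 ≤ α → (∀ ε : ℝ, 0 < ε → ∃ᶠ R : ℕ in atTop, supNorm R ≤ (R : ℝ) ^ (α + ε)) →
      ∀ ρ : ℂ, IsZero ρ → ρ.re ≤ α) ∧
    ((∃ ρ : ℂ, IsZero ρ ∧ 1 / 2 < ρ.re) →
      ∃ δ : ℝ, 0 < δ ∧ ∀ᶠ R : ℕ in atTop, (R : ℝ) ^ (1 / 2 + δ) ≤ supNorm R) := by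
  have h2 : ∀ ρ : ℂ, IsZero ρ → ∀ α : ℝ, α < ρ.re → ∀ᶠ R : ℕ in atTop, (R : ℝ) ^ α ≤ supNorm R := by
    rintro ρ ⟨q, hq, χ, hρ, h0, h1⟩ α hα
    filter_upwards [Pool.Agent.W190.M.SN_large χ hρ h0 h1 α hα] with R hR
    rw [supNorm_eq]
    exact hR
  refine ⟨fun K R hKR => ?_, h2, ?_, ?_⟩
  · rw [supNorm_eq, supNorm_eq]
    have := Pool.Agent.W190.M.SN_mono K R hKR
    push_cast at this
    exact this
  · intro α _ hfreq ρ hρ
    by_contra hcon
    push Not at hcon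
    have h3 := h2 ρ hρ ((α + ρ.re) / 2 + (ρ.re - α) / 4) (by linarith)
    obtain ⟨R, hR1, hR2, hR3⟩ := ((hfreq ((ρ.re - α) / 2) (by linarith)).and_eventually
      (h3.and (eventually_ge_atTop 2))).exists
    have hR : (1:ℝ) < R := by exact_mod_cast (by omega : 1 < R)
    have h4 : (R : ℝ) ^ (α + (ρ.re - α) / 2) < (R : ℝ) ^ ((α + ρ.re) / 2 + (ρ.re - α) / 4) :=
      Real.rpow_lt_rpow_of_exponent_lt hR (by linarith)
    linarith
  · rintro ⟨ρ, hρ, h3⟩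
    exact ⟨(ρ.re - 1 / 2) / 2, by linarith, h2 ρ hρ _ (by linarith)⟩

end Pool.Agent.Results.MP_b6b996_nt.EveryLength
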